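import Pool.Agent.Helper40_Dio.FStmt

/-! # DIO (MP_9ca527_nt), module IRR (helper85) -/

set_option autoImplicit false

namespace Pool.Agent.DIO.H85

open Pool.Agent.DIO

theorem not_sq_aux {u : ℤ} (hu : 2 ≤ u) (k : ℤ) : k ^ 2 ≠ u ^ 2 - 1 := by
  intro h
  have h1 : |k| ^ 2 = u ^ 2 - 1 := by rw [sq_abs]; exact h
  have h0 : 0 ≤ |k| := abs_nonneg k
  have h2 : |k| < u := by nlinarith
  have h3 : u - 1 < |k| := by nlinarith
  omega

theorem norm_ne {A G u U V : ℤ} (hu2 : 2 ≤ u) (hAG : A * G = u ^ 2 - 1) (h0 : ¬ (U = 0 ∧ V = 0)) :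
    U ^ 2 - V ^ 2 * (A * G) ≠ 0 := by
  intro h
  by_cases hV0 : V = 0
  · apply h0
    refine ⟨?_, hV0⟩
    rw [hV0] at h
    have : U ^ 2 = 0 := by linarith
    exact pow_eq_zero_iff (two_ne_zero) |>.1 this
  · have hd : V ^ 2 ∣ U ^ 2 := ⟨A * G, by linarith⟩
    have hd' : V ∣ U := (Int.pow_dvd_pow_iff two_ne_zero).1 hd
    obtain ⟨k, hk⟩ := hd'
    have h2 : V ^ 2 * (k ^ 2 - A * G) = 0 := by rw [hk] at h; linarith [h]
    have h3 : k ^ 2 - A * G = 0 := by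
      rcases mul_eq_zero.1 h2 with h3 | h3
      · exact absurd (pow_eq_zero_iff (two_ne_zero) |>.1 h3) hV0
      · exact h3
    exact not_sq_aux hu2 k (by linarith)

theorem low_aux {B V A G X Y W2 : ℤ} (hB : 0 ≤ B) (hV2 : V ^ 2 ≤ Y ^ 2) (hY : 0 ≤ Y)
    (hA : 0 ≤ A) (hG : 0 ≤ G) (hAY : A ≤ Y) (hGY : G ≤ Y) (h1 : 1 ≤ |X|)
    (hW : W2 = B ^ 2 * X - V ^ 2 * (A + G) * B - V ^ 2) :
    B ^ 2 ≤ |W2| + Y ^ 2 * (2 * Y) * B + Y ^ 2 := by
  have hV20 : 0 ≤ V ^ 2 := sq_nonneg V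
  have hb2 : 0 ≤ B ^ 2 := sq_nonneg _
  have e1 : B ^ 2 ≤ |B ^ 2 * X| := by
    rw [abs_mul, abs_of_nonneg hb2]
    exact le_mul_of_one_le_right hb2 h1
  have e4 : 0 ≤ V ^ 2 * (A + G) * B + V ^ 2 := by positivity
  have e2 : |B ^ 2 * X| ≤ |W2| + (V ^ 2 * (A + G) * B + V ^ 2) := by
    have e3 : B ^ 2 * X = W2 + (V ^ 2 * (A + G) * B + V ^ 2) := by rw [hW]; ring
    rw [e3]
    calc |W2 + (V ^ 2 * (A + G) * B + V ^ 2)| ≤ |W2| + |V ^ 2 * (A + G) * B + V ^ 2| :=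
          abs_add_le _ _
      _ = _ := by rw [abs_of_nonneg e4]
  have e5 : V ^ 2 * (A + G) * B ≤ Y ^ 2 * (2 * Y) * B := by
    have : V ^ 2 * (A + G) ≤ Y ^ 2 * (2 * Y) :=
      mul_le_mul hV2 (by linarith) (by positivity) (by positivity)
    exact mul_le_mul_of_nonneg_right this hB
  linarith

theorem up_aux {B U V N Y : ℤ} (hY : 1 ≤ Y) (hB : 1 ≤ B) (hN0 : 0 ≤ N) (hU : |U| ≤ Y)
    (hV : |V| ≤ Y) (hNle : N ≤ Y * B + 1) : |U * B - V * N| ≤ 3 * Y ^ 2 * B := by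
  have f1 : |U * B - V * N| ≤ |U * B| + |V * N| := abs_sub _ _
  have f2 : |U * B| ≤ Y * B := by
    rw [abs_mul, abs_of_nonneg (by linarith : (0 : ℤ) ≤ B)]
    exact mul_le_mul_of_nonneg_right hU (by linarith)
  have f3 : |V * N| ≤ Y * (Y * B + 1) := by
    rw [abs_mul, abs_of_nonneg hN0]
    exact mul_le_mul hV hNle hN0 (by linarith)
  have g1 : Y * B ≤ Y * (Y * B) := by
    have : 1 * (Y * B) ≤ Y * (Y * B) := mul_le_mul_of_nonneg_right hY (by positivity)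
    linarith
  have g2 : Y ≤ Y * (Y * B) := by
    have : Y * 1 ≤ Y * (Y * B) :=
      mul_le_mul_of_nonneg_left (by nlinarith) (by linarith)
    linarith
  have g3 : Y * (Y * B + 1) = Y * (Y * B) + Y := by ring
  have g4 : 3 * Y ^ 2 * B = 3 * (Y * (Y * B)) := by ring
  linarith

theorem fin_aux {B W Y E : ℤ} (hY : 1 ≤ Y) (hB : 1 ≤ B) (hW0 : 0 ≤ W)
    (hE : E ≤ 3 * Y ^ 2 * B) (h : B ^ 2 ≤ W * E + Y ^ 2 * (2 * Y) * B + Y ^ 2) :
    B ≤ 10 * Y ^ 3 * (W + 1) := by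
  have g2 : W * E ≤ W * (3 * Y ^ 2 * B) := mul_le_mul_of_nonneg_left hE hW0
  have g3 : Y ^ 2 ≤ Y ^ 2 * B := by
    have : Y ^ 2 * 1 ≤ Y ^ 2 * B := mul_le_mul_of_nonneg_left hB (sq_nonneg Y)
    linarith
  have g5 : B * B ≤ B * (3 * Y ^ 2 * W + 2 * Y ^ 3 + Y ^ 2) := by
    have : B * (3 * Y ^ 2 * W + 2 * Y ^ 3 + Y ^ 2) =
      W * (3 * Y ^ 2 * B) + Y ^ 2 * (2 * Y) * B + Y ^ 2 * B := by ring
    rw [this]
    have : B * B = B ^ 2 := by ring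
    linarith
  have g4 : B ≤ 3 * Y ^ 2 * W + 2 * Y ^ 3 + Y ^ 2 := le_of_mul_le_mul_left g5 (by linarith)
  have g6 : Y ^ 2 ≤ Y ^ 3 := pow_le_pow_right₀ hY (by norm_num)
  have g8 : Y ^ 2 * W ≤ Y ^ 3 * W := mul_le_mul_of_nonneg_right g6 hW0
  have g9 : 0 ≤ Y ^ 3 * W := by positivity
  have g10 : 0 ≤ Y ^ 3 := by positivity
  have g11 : 10 * Y ^ 3 * (W + 1) = 10 * (Y ^ 3 * W) + 10 * Y ^ 3 := by ring
  have g12 : 3 * Y ^ 2 * W = 3 * (Y ^ 2 * W) := by ring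
  linarith

theorem irr : IrrStatement := by
  intro A G B N u U V Y hA hG hB hu hN hY hAY hGY hU hV
  by_cases h0 : U = 0 ∧ V = 0
  · exact Or.inl h0
  right
  have hA' : (1 : ℤ) ≤ A := by exact_mod_cast hA
  have hG' : (1 : ℤ) ≤ G := by exact_mod_cast hG
  have hB' : (1 : ℤ) ≤ B := by exact_mod_cast hB
  have hu' : (u : ℤ) * u = A * G + 1 := by exact_mod_cast hu
  have hN' : (N : ℤ) * N = (A * B + 1) * (G * B + 1) := by exact_mod_cast hN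
  have hu0 : (0 : ℤ) ≤ u := by positivity
  have hN0 : (0 : ℤ) ≤ N := by positivity
  clear hA hG hB hu hN
  generalize (A : ℤ) = A at *
  generalize (G : ℤ) = G at *
  generalize (B : ℤ) = B at *
  generalize (N : ℤ) = N at *
  generalize (u : ℤ) = u at *
  have hu2 : (2 : ℤ) ≤ u := by nlinarith
  have hAG : A * G = u ^ 2 - 1 := by linarith [hu', sq u]
  have hne := norm_ne hu2 hAG h0
  have h1 : 1 ≤ |U ^ 2 - V ^ 2 * (A * G)| := Int.one_le_abs hne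
  have hYB : (0 : ℤ) ≤ Y * B := mul_nonneg (by linarith) (by linarith)
  have hNle : N ≤ Y * B + 1 := by
    have h4 : N * N ≤ (Y * B + 1) * (Y * B + 1) := by
      rw [hN']
      have h5 : A * B + 1 ≤ Y * B + 1 := by
        have := mul_le_mul_of_nonneg_right hAY (by linarith : (0 : ℤ) ≤ B)
        linarith
      have h6 : G * B + 1 ≤ Y * B + 1 := by
        have := mul_le_mul_of_nonneg_right hGY (by linarith : (0 : ℤ) ≤ B)
        linarith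
      exact mul_le_mul h5 h6 (by positivity) (by linarith)
    exact abs_le_of_sq_le_sq' (by nlinarith) (by linarith) |>.2
  have hident : (U * B + V * N) * (U * B - V * N) =
      B ^ 2 * (U ^ 2 - V ^ 2 * (A * G)) - V ^ 2 * (A + G) * B - V ^ 2 := by
    have : (U * B + V * N) * (U * B - V * N) = U ^ 2 * B ^ 2 - V ^ 2 * (N * N) := by ring
    rw [this, hN']; ring
  have hV2 : V ^ 2 ≤ Y ^ 2 := by
    rw [← sq_abs V]
    exact pow_le_pow_left₀ (abs_nonneg V) hV 2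
  have hlow := low_aux (by linarith) hV2 (by linarith) (by linarith) (by linarith) hAY hGY h1 hident
  rw [abs_mul] at hlow
  exact fin_aux hY hB' (abs_nonneg _) (up_aux hY hB' hN0 hU hV hNle) hlow

end Pool.Agent.DIO.H85
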