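import Pool.Agent.Helper40_Dio.FStmt

/-! # DIO (MP_9ca527_nt), modules PS5 and PS6 (helper85) -/

set_option autoImplicit false

namespace Pool.Agent.DIO.H85

open Pool.Agent.DIO

theorem pow_chain {Y : ℤ} (hY : 100 ≤ Y) (m n : ℕ) (h : m ≤ n) : Y ^ m ≤ Y ^ n :=
  pow_le_pow_right₀ (by linarith) h

theorem hundred_pow {Y : ℤ} (hY : 100 ≤ Y) (m : ℕ) : 100 * Y ^ m ≤ Y ^ (m + 1) := by
  rw [pow_succ, mul_comm]
  exact mul_le_mul_of_nonneg_left hY (by positivity)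

theorem left_le {x y Z : ℤ} (hx : 0 < x) (hy : 0 < y) (h : x * y ≤ Z) : x ≤ Z := by
  have : x * 1 ≤ x * y := mul_le_mul_of_nonneg_left hy hx.le
  linarith

theorem right_le {x y Z : ℤ} (hx : 0 < x) (hy : 0 < y) (h : x * y ≤ Z) : y ≤ Z := by
  have : 1 * y ≤ x * y := mul_le_mul_of_nonneg_right hx hy.le
  linarith

theorem root_pos {p x : ℤ} (hp : 0 ≤ p) (hx : 0 < x) (h : p * p = x + 1) : 1 ≤ p := by
  by_contra h0
  have : p = 0 := by omega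
  rw [this] at h
  linarith

theorem root_le {p x Z : ℤ} (hp : 1 ≤ p) (hZ : 1 ≤ Z) (h : p * p = x + 1) (hx : x ≤ Z) : p ≤ Z := by
  by_contra h0
  push Not at h0
  have h1 : p * 2 ≤ p * p := mul_le_mul_of_nonneg_left (by linarith) (by linarith)
  linarith

/-- sizes for PS5 -/
theorem size_U {Z x y w : ℤ} (hZ : 100 ≤ Z) (hx0 : 0 ≤ x) (hy0 : 0 ≤ y) (hw0 : 0 ≤ w)
    (hx : x ≤ 4 * Z ^ 3) (hy : y ≤ Z ^ 2) (hw : w ≤ Z ^ 2) :
    |2 * x - 2 * y + 2 * w| ≤ Z ^ 4 := by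
  have z34 := hundred_pow hZ 3
  have z23 := hundred_pow hZ 2
  norm_num at z34 z23
  have z20 : 0 ≤ Z ^ 2 := sq_nonneg Z
  rw [abs_le]
  constructor <;> linarith

theorem size_V {Z x y : ℤ} (hZ : 100 ≤ Z) (hx0 : 0 ≤ x) (hy0 : 0 ≤ y)
    (hx : x ≤ 4 * Z ^ 2) (hy : y ≤ Z ^ 2) :
    |2 * x + 2 * y| ≤ Z ^ 4 := by
  have z34 := hundred_pow hZ 3
  have z23 := hundred_pow hZ 2
  norm_num at z34 z23
  have z20 : 0 ≤ Z ^ 2 := sq_nonneg Z
  rw [abs_le]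
  constructor <;> linarith

theorem size_R {Z x y w : ℤ} (hZ : 100 ≤ Z)
    (hx : x ≤ 4 * Z ^ 3) (hy : y ≤ 4 * Z ^ 2) (hw : w ≤ Z ^ 2) :
    2 * x + y + w ≤ Z ^ 4 := by
  have z34 := hundred_pow hZ 3
  have z23 := hundred_pow hZ 2
  norm_num at z34 z23
  have z20 : 0 ≤ Z ^ 2 := sq_nonneg Z
  linarith

theorem fin5 {Z a b R : ℤ} (hZ : 100 ≤ Z) (ha0 : 0 ≤ a) (hb0 : 0 ≤ b) (haZ : a ≤ Z) (hR : R ≤ Z ^ 4)
    (key : b ≤ 10 * (Z ^ 4) ^ 3 * (R + 1)) (hbig : Z ^ 420 < a * b) : False := by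
  have h4 := pow_chain hZ 0 4 (by norm_num)
  rw [pow_zero] at h4
  have k1 : 10 * (Z ^ 4) ^ 3 * (R + 1) ≤ 10 * (Z ^ 4) ^ 3 * (2 * Z ^ 4) := by
    apply mul_le_mul_of_nonneg_left _ (by positivity)
    linarith
  have k2 : 10 * (Z ^ 4) ^ 3 * (2 * Z ^ 4) = 20 * Z ^ 16 := by ring
  have k3 := hundred_pow hZ 16
  norm_num at k3
  have k4 : b ≤ Z ^ 17 := by
    have : 0 ≤ Z ^ 16 := by positivity
    linarith
  have k5 : a * b ≤ Z * Z ^ 17 := mul_le_mul haZ k4 hb0 (by linarith)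
  have k6 : Z * Z ^ 17 = Z ^ 18 := by ring
  have k7 := pow_chain hZ 18 420 (by norm_num)
  linarith

theorem id5a {a b h p q r s u v μ ν g : ℤ} (hr2 : r * r = a * b + 1)
    (hgd : g = a + b + h + 2 * a * b * h + 2 * (r * (p * q)))
    (hs : s = a * v + r * u) (hu : u = a * q + r * p) (hv : v = b * p + r * q)
    (h1 : 2 * 1 * a * μ * (μ + 1) + s * (2 * μ + 1) - 2 * 1 * b * ν ^ 2 - (a + b - g) * ν = 0) :
    (2 * (a * p * (2 * μ + 1)) - 2 * ν ^ 2 + 2 * (a * h * ν)) * b +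
      (2 * (a * (2 * μ + 1)) + 2 * (p * ν)) * (r * q) =
      -(2 * (a * μ * (μ + 1)) + p * (2 * μ + 1) + h * ν) := by
  have hs' : s = p * (2 * (a * b) + 1) + 2 * a * (r * q) := by
    rw [hs, hv, hu]
    have : a * (b * p + r * q) + r * (a * q + r * p) =
      a * b * p + 2 * a * (r * q) + (r * r) * p := by ring
    rw [this, hr2]; ring
  rw [hs', hgd] at h1
  linear_combination h1

theorem ps5 (hIrr : IrrStatement) : Ps5Statement := by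
  intro a b c r s t g u v w h p q k0 μ ν Y hab hN1 hN2 hν hY hνY hμ hrel hbig hg
  have ha : (0 : ℤ) < a := by exact_mod_cast hN1.ha
  have hb : (0 : ℤ) < b := by exact_mod_cast hN1.hb
  have hh : (0 : ℤ) < h := by exact_mod_cast hN2.hg
  have hr2 : (r : ℤ) * r = a * b + 1 := by exact_mod_cast hN1.hr
  have hp2 : (p : ℤ) * p = a * h + 1 := by exact_mod_cast hN2.hu
  have hgd : (g : ℤ) = a + b + h + 2 * a * b * h + 2 * (r * (p * q)) := by exact_mod_cast hN2.hc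
  have hs : (s : ℤ) = a * v + r * u := by exact_mod_cast hN1.s_eq
  have hu : (u : ℤ) = a * q + r * p := by exact_mod_cast hN2.s_eq
  have hv : (v : ℤ) = b * p + r * q := by exact_mod_cast hN2.t_eq
  have hg4 : 4 * ((a : ℤ) * b * h) < g := by exact_mod_cast hN2.c_gt
  have hYZ : (100 : ℤ) ≤ Y := by exact_mod_cast hY
  have hνY' : (ν : ℤ) ≤ Y := by exact_mod_cast hνY
  have hν' : (1 : ℤ) ≤ ν := by exact_mod_cast hν
  have hμ' : (μ : ℤ) + 1 ≤ 2 * ν := by exact_mod_cast hμ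
  have hμ0 : (0 : ℤ) ≤ μ := by positivity
  have hg' : (g : ℤ) ≤ 4 * b * Y := by exact_mod_cast hg
  have hbig' : (Y : ℤ) ^ 420 < a * b := by exact_mod_cast hbig
  have hp0 : (0 : ℤ) ≤ p := by positivity
  have hrel' : 2 * 1 * (a : ℤ) * μ * (μ + 1) + s * (2 * μ + 1) - 2 * 1 * b * (ν : ℤ) ^ 2 -
      (a + b - g) * ν = 0 := hrel
  have hNN : r * q * (r * q) = (a * b + 1) * (h * b + 1) := by
    have : r * q * (r * q) = (r * r) * (q * q) := by ring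
    rw [this, hN1.hr, hN2.hv, mul_comm b h]
  have hmain := id5a hr2 hgd hs hu hv hrel'
  have hirr := hIrr a h b (r * q) p
    (2 * ((a : ℤ) * p * (2 * μ + 1)) - 2 * ν ^ 2 + 2 * (a * h * ν))
    (2 * ((a : ℤ) * (2 * μ + 1)) + 2 * (p * ν)) ((Y : ℤ) ^ 4) hN1.ha hN2.hg hN1.hb hN2.hu hNN
  push_cast at hirr
  rw [hmain] at hirr
  clear hN1 hN2 hIrr hrel hrel' hgd hs hu hv hr2 hNN hmain hab hν hY hνY hμ hbig hg
  generalize (Y : ℤ) = Z at *
  generalize (a : ℤ) = a at *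
  generalize (b : ℤ) = b at *
  generalize (h : ℤ) = h at *
  generalize (p : ℤ) = p at *
  generalize (μ : ℤ) = μ at *
  generalize (ν : ℤ) = ν at *
  have hZ0 : (0 : ℤ) ≤ Z := by linarith
  have hahY : a * h ≤ Z := by
    have h1 : (4 * b) * (a * h) ≤ (4 * b) * Z := by
      have : 4 * (a * b * h) = 4 * b * (a * h) := by ring
      linarith
    exact le_of_mul_le_mul_left h1 (by positivity)
  have hah0 : 0 < a * h := mul_pos ha hh
  have haY : a ≤ Z := left_le ha hh hahY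
  have hhY : h ≤ Z := right_le ha hh hahY
  have hp1 : 1 ≤ p := root_pos hp0 hah0 hp2
  have hpY : p ≤ Z := root_le hp1 (by linarith) hp2 hahY
  have hμ2 : 2 * μ + 1 ≤ 4 * Z := by linarith
  have hμ3 : μ ≤ 2 * Z := by linarith
  have hμ4 : μ + 1 ≤ 2 * Z := by linarith
  have hν0 : 0 ≤ ν := by linarith
  have m1 : a * p * (2 * μ + 1) ≤ 4 * Z ^ 3 :=
    (mul_le_mul (mul_le_mul haY hpY hp0 hZ0) hμ2 (by positivity) (by positivity)).trans
      (le_of_eq (by ring))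
  have m2 : ν ^ 2 ≤ Z ^ 2 := pow_le_pow_left₀ hν0 hνY' 2
  have m3 : a * h * ν ≤ Z ^ 2 :=
    (mul_le_mul hahY hνY' hν0 hZ0).trans (le_of_eq (by ring))
  have m4 : a * (2 * μ + 1) ≤ 4 * Z ^ 2 :=
    (mul_le_mul haY hμ2 (by positivity) hZ0).trans (le_of_eq (by ring))
  have m5 : p * ν ≤ Z ^ 2 := (mul_le_mul hpY hνY' hν0 hZ0).trans (le_of_eq (by ring))
  have m6 : a * μ * (μ + 1) ≤ 4 * Z ^ 3 :=
    (mul_le_mul (mul_le_mul haY hμ3 hμ0 hZ0) hμ4 (by positivity) (by positivity)).trans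
      (le_of_eq (by ring))
  have m7 : p * (2 * μ + 1) ≤ 4 * Z ^ 2 :=
    (mul_le_mul hpY hμ2 (by positivity) hZ0).trans (le_of_eq (by ring))
  have m8 : h * ν ≤ Z ^ 2 := (mul_le_mul hhY hνY' hν0 hZ0).trans (le_of_eq (by ring))
  have hUle := size_U hYZ (by positivity : 0 ≤ a * p * (2 * μ + 1)) (by positivity : 0 ≤ ν ^ 2)
    (by positivity : 0 ≤ a * h * ν) m1 m2 m3
  have hVle := size_V hYZ (by positivity : 0 ≤ a * (2 * μ + 1)) (by positivity : 0 ≤ p * ν) m4 m5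
  have hRle := size_R hYZ m6 m7 m8
  have hV0 : 0 < 2 * (a * (2 * μ + 1)) + 2 * (p * ν) := by positivity
  have hR0 : 0 ≤ 2 * (a * μ * (μ + 1)) + p * (2 * μ + 1) + h * ν := by positivity
  have z14 := pow_chain hYZ 1 4 (by norm_num)
  rw [pow_one] at z14
  rcases hirr (by linarith) (by linarith) (by linarith) hUle hVle with ⟨_, h2⟩ | key
  · exact absurd h2 hV0.ne'
  · rw [abs_neg, abs_of_nonneg hR0] at key
    exact fin5 hYZ ha.le hb.le haY hRle key hbig'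

theorem id6a {a b h p q r s u v μ ν g : ℤ} (hu2 : u * u = a * g + 1)
    (hbd : b = a + g + h + 2 * a * g * h + 2 * (u * (p * q)))
    (hs : s = a * v + r * u) (hr : r = a * q + u * p) (hv : v = g * p + u * q)
    (h1 : 2 * 1 * a * μ * (μ + 1) + s * (2 * μ + 1) - 2 * 1 * b * ν ^ 2 - (a + b - g) * ν = 0) :
    (2 * (a * p * (2 * μ + 1)) - (2 * ν ^ 2 + ν) * (1 + 2 * (a * h)) + ν) * g +
      (2 * (a * (2 * μ + 1)) - 2 * (p * (2 * ν ^ 2 + ν))) * (u * q) =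
      -(2 * (a * μ * (μ + 1)) + (2 * μ + 1) * p - a * ν - (a + h) * (2 * ν ^ 2 + ν)) := by
  have hs' : s = p * (2 * (a * g) + 1) + 2 * a * (u * q) := by
    rw [hs, hv, hr]
    have : a * (g * p + u * q) + (a * q + u * p) * u =
      a * g * p + 2 * a * (u * q) + (u * u) * p := by ring
    rw [this, hu2]; ring
  rw [hs', hbd] at h1
  linear_combination h1

theorem id6b {a h p μ ν : ℤ} (hp2 : p * p = a * h + 1) (hν : 1 ≤ ν)
    (h1 : 2 * (a * p * (2 * μ + 1)) - (2 * ν ^ 2 + ν) * (1 + 2 * (a * h)) + ν = 0)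
    (h2 : 2 * (a * (2 * μ + 1)) - 2 * (p * (2 * ν ^ 2 + ν)) = 0) : False := by
  have e1 : a * (2 * μ + 1) = p * (2 * ν ^ 2 + ν) := by linarith
  have e2 : a * p * (2 * μ + 1) = (a * h + 1) * (2 * ν ^ 2 + ν) := by
    have : a * p * (2 * μ + 1) = p * (a * (2 * μ + 1)) := by ring
    rw [this, e1, ← hp2]; ring
  rw [e2] at h1
  have e3 : 0 ≤ ν ^ 2 := sq_nonneg ν
  have e4 : 2 * ((a * h + 1) * (2 * ν ^ 2 + ν)) - (2 * ν ^ 2 + ν) * (1 + 2 * (a * h)) + ν =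
    2 * ν ^ 2 + 2 * ν := by ring
  linarith

theorem fin6 {Z a b g h R : ℤ} (hZ : 100 ≤ Z) (hb0 : 0 ≤ b) (hg0 : 0 ≤ g)
    (haP : a ≤ Z ^ 40) (hahP : a * h ≤ Z ^ 40)
    (hb16 : b ≤ 16 * (a * g * h)) (hR : |R| ≤ Z ^ 43)
    (key : g ≤ 10 * (Z ^ 82) ^ 3 * (|R| + 1)) (hbig : Z ^ 420 < a * b) : False := by
  have h43 := pow_chain hZ 0 43 (by norm_num)
  rw [pow_zero] at h43
  have k1 : 10 * (Z ^ 82) ^ 3 * (|R| + 1) ≤ 10 * (Z ^ 82) ^ 3 * (2 * Z ^ 43) := by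
    apply mul_le_mul_of_nonneg_left _ (by positivity)
    linarith
  have k2 : 10 * (Z ^ 82) ^ 3 * (2 * Z ^ 43) = 20 * Z ^ 289 := by ring
  have k3 := hundred_pow hZ 289
  norm_num at k3
  have k4 : g ≤ Z ^ 290 := by
    have : 0 ≤ Z ^ 289 := by positivity
    linarith
  have k5 : b ≤ 16 * (Z ^ 40 * Z ^ 290) := by
    have : a * h * g ≤ Z ^ 40 * Z ^ 290 := mul_le_mul hahP k4 hg0 (by positivity)
    have e : 16 * (a * g * h) = 16 * (a * h * g) := by ring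
    linarith
  have k6 : a * b ≤ Z ^ 40 * (16 * (Z ^ 40 * Z ^ 290)) :=
    mul_le_mul haP k5 hb0 (by positivity)
  have k7 : Z ^ 40 * (16 * (Z ^ 40 * Z ^ 290)) = 16 * Z ^ 370 := by ring
  have k8 := hundred_pow hZ 370
  norm_num at k8
  have k9 := pow_chain hZ 371 420 (by norm_num)
  have k10 : 0 ≤ Z ^ 370 := by positivity
  linarith

theorem size6U {Z x y ν : ℤ} (hZ : 100 ≤ Z) (hx0 : 0 ≤ x) (hy0 : 0 ≤ y) (hν0 : 0 ≤ ν) (hν : ν ≤ Z)
    (hx : x ≤ 4 * Z ^ 81) (hy : y ≤ 3 * Z ^ 2 + 6 * Z ^ 42) :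
    |2 * x - y + ν| ≤ Z ^ 82 := by
  have r1 := hundred_pow hZ 81
  have r2 := pow_chain hZ 42 81 (by norm_num)
  have r3 := pow_chain hZ 2 81 (by norm_num)
  have r4 := pow_chain hZ 1 81 (by norm_num)
  norm_num at r1 r4
  have r7 : 0 ≤ Z ^ 81 := by positivity
  rw [abs_le]
  constructor <;> linarith

theorem size6V {Z x y : ℤ} (hZ : 100 ≤ Z) (hx0 : 0 ≤ x) (hy0 : 0 ≤ y)
    (hx : x ≤ 4 * Z ^ 41) (hy : y ≤ 3 * Z ^ 42) :
    |2 * x - 2 * y| ≤ Z ^ 82 := by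
  have r1 := hundred_pow hZ 81
  have r2 := pow_chain hZ 42 81 (by norm_num)
  have r3 := pow_chain hZ 41 81 (by norm_num)
  norm_num at r1
  have r7 : 0 ≤ Z ^ 81 := by positivity
  rw [abs_le]
  constructor <;> linarith

theorem size6R {Z x y z w : ℤ} (hZ : 100 ≤ Z) (hx0 : 0 ≤ x) (hy0 : 0 ≤ y) (hz0 : 0 ≤ z)
    (hw0 : 0 ≤ w) (hx : x ≤ 4 * Z ^ 42) (hy : y ≤ 4 * Z ^ 41) (hz : z ≤ Z ^ 41)
    (hw : w ≤ 6 * Z ^ 42) :
    |2 * x + y - z - w| ≤ Z ^ 43 := by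
  have r1 := hundred_pow hZ 42
  have r3 := pow_chain hZ 41 42 (by norm_num)
  norm_num at r1
  have r7 : 0 ≤ Z ^ 42 := by positivity
  rw [abs_le]
  constructor <;> linarith

theorem ps6 (hIrr : IrrStatement) : Ps6Statement := by
  intro a b c r s t g u v w h p q k0 μ ν Y hab hN1 hN2 hν hY hνY hμ hrel hbig hah
  have ha : (0 : ℤ) < a := by exact_mod_cast hN1.ha
  have hb : (0 : ℤ) < b := by exact_mod_cast hN1.hb
  have hg0 : (0 : ℤ) < g := by exact_mod_cast hN1.hg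
  have hh : (0 : ℤ) < h := by exact_mod_cast hN2.hg
  have hu2 : (u : ℤ) * u = a * g + 1 := by exact_mod_cast hN1.hu
  have hp2 : (p : ℤ) * p = a * h + 1 := by exact_mod_cast hN2.hu
  have hbd : (b : ℤ) = a + g + h + 2 * a * g * h + 2 * (u * (p * q)) := by exact_mod_cast hN2.hc
  have hs : (s : ℤ) = a * v + r * u := by exact_mod_cast hN1.s_eq
  have hr : (r : ℤ) = a * q + u * p := by exact_mod_cast hN2.s_eq
  have hv : (v : ℤ) = g * p + u * q := by exact_mod_cast hN2.t_eq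
  have hb16 : (b : ℤ) ≤ 16 * (a * g * h) := by exact_mod_cast hN2.c_le
  have hYZ : (100 : ℤ) ≤ Y := by exact_mod_cast hY
  have hνY' : (ν : ℤ) ≤ Y := by exact_mod_cast hνY
  have hν' : (1 : ℤ) ≤ ν := by exact_mod_cast hν
  have hμ' : (μ : ℤ) + 1 ≤ 2 * ν := by exact_mod_cast hμ
  have hμ0 : (0 : ℤ) ≤ μ := by positivity
  have hbig' : (Y : ℤ) ^ 420 < a * b := by exact_mod_cast hbig
  have hah' : (a : ℤ) * h ≤ (Y : ℤ) ^ 40 := by exact_mod_cast hah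
  have hp0 : (0 : ℤ) ≤ p := by positivity
  have hrel' : 2 * 1 * (a : ℤ) * μ * (μ + 1) + s * (2 * μ + 1) - 2 * 1 * b * (ν : ℤ) ^ 2 -
      (a + b - g) * ν = 0 := hrel
  have hNN : u * q * (u * q) = (a * g + 1) * (h * g + 1) := by
    have : u * q * (u * q) = (u * u) * (q * q) := by ring
    rw [this, hN1.hu, hN2.hv, mul_comm g h]
  have hmain := id6a hu2 hbd hs hr hv hrel'
  have hirr := hIrr a h g (u * q) p
    (2 * ((a : ℤ) * p * (2 * μ + 1)) - (2 * ν ^ 2 + ν) * (1 + 2 * (a * h)) + ν)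
    (2 * ((a : ℤ) * (2 * μ + 1)) - 2 * (p * (2 * ν ^ 2 + ν))) ((Y : ℤ) ^ 82)
    hN1.ha hN2.hg hN1.hg hN2.hu hNN
  push_cast at hirr
  rw [hmain] at hirr
  clear hN1 hN2 hIrr hrel hrel' hbd hs hr hv hu2 hNN hmain hab hν hY hνY hμ hbig hah
  generalize (Y : ℤ) = Z at *
  generalize (a : ℤ) = a at *
  generalize (b : ℤ) = b at *
  generalize (g : ℤ) = g at *
  generalize (h : ℤ) = h at *
  generalize (p : ℤ) = p at *
  generalize (μ : ℤ) = μ at *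
  generalize (ν : ℤ) = ν at *
  have hZ0 : (0 : ℤ) ≤ Z := by linarith
  have hP0 : 0 ≤ Z ^ 40 := by positivity
  have hP1 := pow_chain hYZ 0 40 (by norm_num)
  rw [pow_zero] at hP1
  have hah0 : 0 < a * h := mul_pos ha hh
  have haP : a ≤ Z ^ 40 := left_le ha hh hah'
  have hhP : h ≤ Z ^ 40 := right_le ha hh hah'
  have hp1 : 1 ≤ p := root_pos hp0 hah0 hp2
  have hpP : p ≤ Z ^ 40 := root_le hp1 (by linarith) hp2 hah'
  have hμ2 : 2 * μ + 1 ≤ 4 * Z := by linarith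
  have hμ3 : μ ≤ 2 * Z := by linarith
  have hμ4 : μ + 1 ≤ 2 * Z := by linarith
  have hν0 : 0 ≤ ν := by linarith
  have m2 : ν ^ 2 ≤ Z ^ 2 := pow_le_pow_left₀ hν0 hνY' 2
  have hZ2 : Z ≤ Z ^ 2 := by
    have := pow_chain hYZ 1 2 (by norm_num)
    rwa [pow_one] at this
  have m9 : 2 * ν ^ 2 + ν ≤ 3 * Z ^ 2 := by linarith
  have m90 : 0 ≤ 2 * ν ^ 2 + ν := by positivity
  have m1 : a * p * (2 * μ + 1) ≤ 4 * Z ^ 81 :=
    (mul_le_mul (mul_le_mul haP hpP hp0 hP0) hμ2 (by positivity) (by positivity)).trans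
      (le_of_eq (by ring))
  have m3 : (2 * ν ^ 2 + ν) * (1 + 2 * (a * h)) ≤ 3 * Z ^ 2 + 6 * Z ^ 42 :=
    (mul_le_mul m9 (by linarith : 1 + 2 * (a * h) ≤ 1 + 2 * Z ^ 40) (by positivity)
      (by positivity)).trans (le_of_eq (by ring))
  have m4 : a * (2 * μ + 1) ≤ 4 * Z ^ 41 :=
    (mul_le_mul haP hμ2 (by positivity) hP0).trans (le_of_eq (by ring))
  have m5 : p * (2 * ν ^ 2 + ν) ≤ 3 * Z ^ 42 :=
    (mul_le_mul hpP m9 m90 hP0).trans (le_of_eq (by ring))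
  have m6 : a * μ * (μ + 1) ≤ 4 * Z ^ 42 :=
    (mul_le_mul (mul_le_mul haP hμ3 hμ0 hP0) hμ4 (by positivity) (by positivity)).trans
      (le_of_eq (by ring))
  have m7 : (2 * μ + 1) * p ≤ 4 * Z ^ 41 :=
    (mul_le_mul hμ2 hpP hp0 (by positivity)).trans (le_of_eq (by ring))
  have m8 : a * ν ≤ Z ^ 41 :=
    (mul_le_mul haP hνY' hν0 hP0).trans (le_of_eq (by ring))
  have m10 : (a + h) * (2 * ν ^ 2 + ν) ≤ 6 * Z ^ 42 :=
    (mul_le_mul (by linarith : a + h ≤ 2 * Z ^ 40) m9 m90 (by positivity)).trans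
      (le_of_eq (by ring))
  have hUle := size6U hYZ (by positivity : 0 ≤ a * p * (2 * μ + 1))
    (by positivity : 0 ≤ (2 * ν ^ 2 + ν) * (1 + 2 * (a * h))) hν0 hνY' m1 m3
  have hVle := size6V hYZ (by positivity : 0 ≤ a * (2 * μ + 1))
    (by positivity : 0 ≤ p * (2 * ν ^ 2 + ν)) m4 m5
  have hRle := size6R hYZ (by positivity : 0 ≤ a * μ * (μ + 1)) (by positivity : 0 ≤ (2 * μ + 1) * p)
    (by positivity : 0 ≤ a * ν) (by positivity : 0 ≤ (a + h) * (2 * ν ^ 2 + ν)) m6 m7 m8 m10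
  have r6 := pow_chain hYZ 0 82 (by norm_num)
  have r10 := pow_chain hYZ 40 82 (by norm_num)
  rw [pow_zero] at r6
  rcases hirr (by linarith) (by linarith) (by linarith) hUle hVle with ⟨h1, h2⟩ | key
  · exact id6b hp2 hν' h1 h2
  · rw [abs_neg] at key
    exact fin6 hYZ hb.le hg0.le haP hah' hb16 hRle key hbig'

end Pool.Agent.DIO.H85
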